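import Pool.Agent.R416.CV.Count

/-!
# Few classes with a given proportion of their elements in a small set

`richL lam N p C` is the set of the residues `r` modulo `p` such that at least `lam N / (2 p)` elements of the class
of `r` in `[1, N]` are in `C`. For all primes of `P` together there are at most
`960 L ^ 3 |C| / (lam N) ^ 2` of them.
-/

set_option autoImplicit false
set_option maxHeartbeats 1000000

open Finset

namespace Pool.Agent.K3h46.TP

open Pool.Agent.R416.CV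

open Classical in
/-- the residues `r` whose class in `[1, N]` has at least `lam N / (2 p)` elements in `C` -/
noncomputable def richL (lam : ℝ) (N p : ℕ) (C : Finset ℕ) : Finset ℕ :=
  (range p).filter (fun r => lam * N / (2 * p) ≤ ((cls N p r ∩ C).card : ℝ))

lemma low_numL {lam n p c r s : ℝ} (hp : 0 < p) (hr : 0 ≤ r) (hc : 4 * c ≤ lam * n)
    (h : r * (lam * n / (2 * p)) ≤ s) : lam * n / 4 * (r / p) ≤ s - c * (r / p) := by
  have e4 : lam * n / 4 * (r / p) = r * (lam * n / (2 * p)) - (lam * n / 4) * (r / p) := by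
    field_simp
    ring
  have e5 : c * (r / p) ≤ (lam * n / 4) * (r / p) := by
    apply mul_le_mul_of_nonneg_right _ (by positivity)
    linarith
  linarith

/-- lower bound for the sum over `C` -/
lemma low_stepL (lam : ℝ) (P : Finset ℕ) (N : ℕ) (hP : ∀ p ∈ P, p.Prime)
    (C : Finset ℕ) (hC : C ⊆ Icc 1 N) (hCN : 4 * (C.card : ℝ) ≤ lam * N) :
    lam * (N : ℝ) / 4 * ∑ p ∈ P, ((richL lam N p C).card : ℝ) / p ≤
      ∑ n ∈ C, ∑ p ∈ P, ((if n % p ∈ richL lam N p C then (1 : ℝ) else 0) -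
        ((richL lam N p C).card : ℝ) / p) := by
  classical
  rw [sum_comm, mul_sum]
  apply sum_le_sum
  intro p hp
  rw [sum_sub_distrib, sum_const, nsmul_eq_mul]
  have hp0 : 0 < p := (hP p hp).pos
  have hp' : (0 : ℝ) < p := by exact_mod_cast hp0
  have e2 : ∑ n ∈ C, (if n % p ∈ richL lam N p C then (1 : ℝ) else 0) =
      ∑ r ∈ richL lam N p C, ((cls N p r ∩ C).card : ℝ) := by
    rw [← sum_filter, sum_const, nsmul_eq_mul, mul_one]
    have : C.filter (fun n => n % p ∈ richL lam N p C) =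
        (richL lam N p C).biUnion (fun r => cls N p r ∩ C) := by
      ext n
      simp only [mem_filter, mem_biUnion, mem_inter, cls]
      constructor
      · rintro ⟨h1, h3⟩
        exact ⟨n % p, h3, ⟨hC h1, rfl⟩, h1⟩
      · rintro ⟨r, h1, ⟨_, h3⟩, h4⟩
        exact ⟨h4, h3 ▸ h1⟩
    rw [this, card_biUnion]
    · push_cast; rfl
    · intro r _ s _ hrs
      rw [Function.onFun, disjoint_left]
      intro n hn hn'
      simp only [mem_inter, cls, mem_filter] at hn hn'
      exact hrs (hn.1.2.symm.trans hn'.1.2)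
  rw [e2]
  have e3 : ∑ r ∈ richL lam N p C, (lam * (N : ℝ) / (2 * p)) ≤
      ∑ r ∈ richL lam N p C, ((cls N p r ∩ C).card : ℝ) := by
    apply sum_le_sum
    intro r hr
    rw [richL, mem_filter] at hr
    exact hr.2
  rw [sum_const, nsmul_eq_mul] at e3
  exact low_numL hp' (Nat.cast_nonneg _) hCN e3

lemma final_stepL {n c t q l s1 s2 : ℝ} (hn : 0 < n) (ht : 0 ≤ t) (hc : 0 ≤ c)
    (hlow : n / 4 * t ≤ s1) (hcs : s1 ^ 2 ≤ c * s2) (hls : s2 ≤ 6 * q * t)
    (hq : q ≤ 5 * l ^ 2) : t ≤ 480 * (l ^ 2 * c / n ^ 2) := by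
  rcases ht.eq_or_lt with h0 | h0
  · rw [← h0]; positivity
  · have h1 : (n / 4 * t) ^ 2 ≤ s1 ^ 2 := pow_le_pow_left₀ (by positivity) hlow 2
    have h2 : c * s2 ≤ c * (6 * (5 * l ^ 2) * t) := by
      apply mul_le_mul_of_nonneg_left _ hc
      refine hls.trans ?_
      apply mul_le_mul_of_nonneg_right _ ht
      linarith
    have h5 : ((n / 4) ^ 2 * t) * t ≤ (c * (6 * (5 * l ^ 2))) * t := by
      calc ((n / 4) ^ 2 * t) * t = (n / 4 * t) ^ 2 := by ring
        _ ≤ s1 ^ 2 := h1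
        _ ≤ c * s2 := hcs
        _ ≤ _ := h2
        _ = _ := by ring
    have h6 := le_of_mul_le_mul_right h5 h0
    have e : 480 * (l ^ 2 * c / n ^ 2) = (c * (6 * (5 * l ^ 2))) / (n / 4) ^ 2 := by
      field_simp
      ring
    rw [e, le_div_iff₀ (by positivity)]
    linarith

/-- **Few classes with many elements in `C`** (from the dual large sieve). -/
theorem richL_sum {lam : ℝ} (hlam : 0 < lam) (P : Finset ℕ) (N : ℕ) (L : ℝ) (hL : 1 ≤ L)
    (hP : ∀ p ∈ P, p.Prime) (h2 : ∀ p ∈ P, (p : ℝ) ≤ 2 * L) (hN : 4 * L ≤ N)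
    (hNL : (N : ℝ) ≤ L ^ 2) (C : Finset ℕ) (hC : C ⊆ Icc 1 N)
    (hCN : 4 * (C.card : ℝ) ≤ lam * N) :
    ∑ p ∈ P, ((richL lam N p C).card : ℝ) ≤ 960 * (L ^ 3 * C.card / (lam * (N : ℝ)) ^ 2) := by
  classical
  have hN0 : (0 : ℝ) < N := by linarith
  obtain ⟨Q, hQ⟩ : ∃ Q : ℕ, Q = ⌊2 * L⌋₊ := ⟨_, rfl⟩
  have hQL : (Q : ℝ) ≤ 2 * L := by rw [hQ]; exact Nat.floor_le (by positivity)
  have hpQ : ∀ p ∈ P, p ≤ Q := fun p hp => by rw [hQ]; exact Nat.le_floor (h2 p hp)
  have hLS := Pool.Agent.H174R3.D6LS.taskLS N Q P (fun p => richL lam N p C)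
    (P.image (fun p => ({p} : Finset ℕ))) (fun _ => 1) hP (fun q _ => filter_subset _ _)
    (by
      intro s hs
      rw [mem_image] at hs
      obtain ⟨p, hp, rfl⟩ := hs
      exact ⟨by simpa using hp, by simpa using hpQ p hp⟩)
  have hinj : Set.InjOn (fun p : ℕ => ({p} : Finset ℕ)) (P : Set ℕ) := by
    intro x _ y _ h
    simpa using h
  simp only [sum_image hinj, prod_singleton, one_mul, one_pow] at hLS
  have hlow := low_stepL lam P N hP C hC hCN
  have hcs := sq_sum_le_card_mul_sum_sq (s := C) (f := fun n => ∑ p ∈ P,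
    ((if n % p ∈ richL lam N p C then (1 : ℝ) else 0) - ((richL lam N p C).card : ℝ) / p))
  have hmono : ∑ n ∈ C, (∑ p ∈ P,
      ((if n % p ∈ richL lam N p C then (1 : ℝ) else 0) - ((richL lam N p C).card : ℝ) / p)) ^ 2 ≤
      ∑ n ∈ Icc 1 N, (∑ p ∈ P,
      ((if n % p ∈ richL lam N p C then (1 : ℝ) else 0) -
        ((richL lam N p C).card : ℝ) / p)) ^ 2 :=
    sum_le_sum_of_subset_of_nonneg hC fun _ _ _ => sq_nonneg _
  have hT0 : 0 ≤ ∑ p ∈ P, ((richL lam N p C).card : ℝ) / p := sum_nonneg fun p _ => by positivity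
  have hQ2 : (N : ℝ) + (Q : ℝ) ^ 2 ≤ 5 * L ^ 2 := by
    have : (Q : ℝ) ^ 2 ≤ (2 * L) ^ 2 := pow_le_pow_left₀ (Nat.cast_nonneg _) hQL 2
    nlinarith
  have hT1 := final_stepL (n := lam * N) (by positivity) hT0 (Nat.cast_nonneg C.card) hlow hcs
    (hmono.trans hLS) hQ2
  have hsum : ∑ p ∈ P, ((richL lam N p C).card : ℝ) ≤
      ∑ p ∈ P, 2 * L * (((richL lam N p C).card : ℝ) / p) := by
    apply sum_le_sum
    intro p hp
    have hp' : (0 : ℝ) < p := by exact_mod_cast (hP p hp).pos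
    have hc0 : (0 : ℝ) ≤ ((richL lam N p C).card : ℝ) / p := by positivity
    have hmul := mul_le_mul_of_nonneg_right (h2 p hp) hc0
    rwa [mul_div_cancel₀ _ hp'.ne'] at hmul
  rw [← mul_sum] at hsum
  have h3 := mul_le_mul_of_nonneg_left hT1 (show 0 ≤ 2 * L by positivity)
  refine (hsum.trans h3).trans (le_of_eq ?_)
  ring

/-- classes have at most `N / p + 1` elements -/
lemma cls_card_le (N p r : ℕ) : (cls N p r).card ≤ N / p + 1 := by
  have h2 : (cls N p r).card ≤ (range (N / p + 1)).card := by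
    apply card_le_card_of_injOn (fun n => n / p)
    · intro n hn
      rw [mem_coe, cls, mem_filter, mem_Icc] at hn
      rw [mem_coe, mem_range, Nat.lt_succ_iff]
      exact Nat.div_le_div_right hn.1.2
    · intro n hn m hm hnm
      rw [mem_coe, cls, mem_filter] at hn hm
      simp only at hnm
      rw [← Nat.div_add_mod n p, ← Nat.div_add_mod m p, hn.2, hm.2, hnm]
  rwa [card_range] at h2

lemma cls_card_le' {N p : ℕ} (r : ℕ) {L : ℝ} (hL : 0 < L) (hpL : L ≤ (p : ℝ)) (hN : L ≤ N) :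
    ((cls N p r).card : ℝ) ≤ 2 * N / L := by
  have h1 : ((cls N p r).card : ℝ) ≤ ((N / p : ℕ) : ℝ) + 1 := by exact_mod_cast cls_card_le N p r
  have h2 : ((N / p : ℕ) : ℝ) ≤ N / p := Nat.cast_div_le
  have h3 : (N : ℝ) / p ≤ N / L := by gcongr
  have h4 : 1 ≤ (N : ℝ) / L := by rwa [le_div_iff₀ hL, one_mul]
  have h5 : 2 * (N : ℝ) / L = N / L + N / L := by ring
  linarith

end Pool.Agent.K3h46.TP
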