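import Pool.Agent.R416.CV.Greedy
import Pool.Agent.K3h46.TP.Rich

/-!
# Counting the choices of classes with large proportions in a small set
-/

set_option autoImplicit false
set_option maxHeartbeats 1000000

open Finset

namespace Pool.Agent.K3h46.TP

open Pool.Agent.R416.CV

variable {P : Finset ℕ}

open Classical in
/-- the primes `p` such that `E` contains at least `lam N / p` elements of the class of `a p` -/
noncomputable def good (lam : ℝ) (N : ℕ) (a : {p // p ∈ P} → ℕ) (E : Finset ℕ) :
    Finset {p // p ∈ P} :=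
  univ.filter (fun p => lam * N / p.1 ≤ ((cls N p.1 (a p) ∩ E).card : ℝ))

/-- **Greedy choice.** -/
theorem greedyL {lam : ℝ} (hlam : 0 < lam) (N : ℕ) (a : {p // p ∈ P} → ℕ) (ha : ∀ p, a p < p.1)
    {L : ℝ} (h2 : ∀ p ∈ P, (p : ℝ) ≤ 2 * L) (E : Finset ℕ)
    (G : Finset {p // p ∈ P}) (hG : G ⊆ good lam N a E) :
    ∃ D ⊆ G, (D.card : ℝ) * (lam * N / (4 * L)) ≤ (E.card : ℝ) ∧
      ∀ p ∈ G, p ∉ D → a p ∈ richL lam N p.1 (cov N D a) := by
  classical
  obtain ⟨D, hD, hmax⟩ := exists_max_image (G.powerset.filter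
    (fun D => (D.card : ℝ) * (lam * N / (4 * L)) ≤ ((cov N D a ∩ E).card : ℝ))) (fun D => D.card)
    ⟨∅, by simp⟩
  rw [mem_filter, mem_powerset] at hD
  refine ⟨D, hD.1, ?_, ?_⟩
  · refine hD.2.trans ?_
    exact_mod_cast card_le_card inter_subset_right
  · intro p hpG hp
    by_contra hnot
    rw [richL, mem_filter, mem_range] at hnot
    have h1 : ((cls N p.1 (a p) ∩ cov N D a).card : ℝ) < lam * N / (2 * p.1) := by
      by_contra hcon
      push Not at hcon
      exact hnot ⟨ha p, hcon⟩
    have hp0 : (0 : ℝ) < p.1 := by exact_mod_cast (Nat.zero_le _).trans_lt (ha p)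
    have h6 : lam * N / p.1 ≤ ((cls N p.1 (a p) ∩ E).card : ℝ) := by
      have := hG hpG
      rw [good, mem_filter] at this
      exact this.2
    have h7 : lam * N / p.1 = lam * N / (2 * p.1) + lam * N / (2 * p.1) := by
      field_simp
      ring
    have h8 : lam * N / (4 * L) ≤ lam * N / (2 * p.1) := by
      have := h2 p.1 p.2
      apply div_le_div_of_nonneg_left (by positivity) (by positivity)
      linarith
    have h2 := hmax (insert p D) (by
      rw [mem_filter, mem_powerset]
      refine ⟨insert_subset hpG hD.1, ?_⟩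
      rw [card_insert_of_notMem hp, cov_insert, union_inter_distrib_right]
      have h3 := card_union_add_card_inter (cov N D a ∩ E) (cls N p.1 (a p) ∩ E)
      have h3' : (((cov N D a ∩ E) ∪ (cls N p.1 (a p) ∩ E)).card : ℝ) +
          (((cov N D a ∩ E) ∩ (cls N p.1 (a p) ∩ E)).card : ℝ) =
          ((cov N D a ∩ E).card : ℝ) + ((cls N p.1 (a p) ∩ E).card : ℝ) := by exact_mod_cast h3
      have h4 : (((cov N D a ∩ E) ∩ (cls N p.1 (a p) ∩ E)).card : ℝ) ≤
          ((cls N p.1 (a p) ∩ cov N D a).card : ℝ) := by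
        apply Nat.cast_le.2
        apply card_le_card
        intro n hn
        simp only [mem_inter] at hn ⊢
        exact ⟨hn.2.1, hn.1.1⟩
      have h5 := hD.2
      push_cast
      linarith)
    rw [card_insert_of_notMem hp] at h2
    omega

/-- bound for a product by the sum of the factors -/
lemma prod_boundL {ι : Type} [DecidableEq ι] (G D : Finset ι) (x : ι → ℝ)
    (hx : ∀ i, 0 ≤ x i) {l m S : ℝ} (hl : 0 < l) (hm : 1 ≤ m) (hlm : 1 ≤ l * m)
    (hS : ∑ i ∈ G, x i ≤ S) (hDG : D ⊆ G) {d : ℕ} (hd : D.card ≤ d) :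
    ∏ i ∈ G, (if i ∈ D then (1 : ℝ) else x i) ≤ l ^ G.card * m ^ d * Real.exp (S / l) := by
  have h1 : ∏ i ∈ G, (if i ∈ D then (1 : ℝ) else x i) ≤
      ∏ i ∈ G, (l * (if i ∈ D then m else 1) * Real.exp (x i / l)) := by
    apply prod_le_prod
    · intro i _
      split_ifs
      · norm_num
      · exact hx i
    · intro i _
      split_ifs
      · have : 1 ≤ Real.exp (x i / l) := Real.one_le_exp (div_nonneg (hx i) hl.le)
        nlinarith
      · rw [mul_one]
        exact le_mul_exp hl
  refine h1.trans ?_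
  rw [prod_mul_distrib, prod_mul_distrib, prod_const, ← Real.exp_sum, ← sum_div, prod_ite_mem,
    inter_eq_right.2 hDG, prod_const]
  have h2 : m ^ D.card ≤ m ^ d := pow_le_pow_right₀ hm hd
  have h3 : Real.exp ((∑ i ∈ G, x i) / l) ≤ Real.exp (S / l) := by
    apply Real.exp_le_exp.2
    exact div_le_div_of_nonneg_right hS hl.le
  gcongr

open Classical in
/-- the choices (one residue for each `p ∈ P`) for which some set with at most `X` elements
contains at least `lam N / p` elements of the class for at least `th |P|` of the primes `p` -/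
noncomputable def badL (lam th : ℝ) (P : Finset ℕ) (N : ℕ) (X : ℝ) :
    Finset ({p // p ∈ P} → ℕ) :=
  (Fintype.piFinset (fun p : {p // p ∈ P} => range p.1)).filter
    (fun a => ∃ E : Finset ℕ, (E.card : ℝ) ≤ X ∧ th * P.card ≤ ((good lam N a E).card : ℝ))

/-- **Counting the choices with large proportions in a small set.** -/
theorem countL {lam th : ℝ} (hlam : 0 < lam) (P : Finset ℕ) (N : ℕ) (L : ℝ)
    (hL : 1 ≤ L) (hP : ∀ p ∈ P, p.Prime) (h1 : ∀ p ∈ P, L ≤ (p : ℝ))
    (h2 : ∀ p ∈ P, (p : ℝ) ≤ 2 * L) (hN : 4 * L ≤ N) (hNL : (N : ℝ) ≤ L ^ 2)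
    (X : ℝ) (hX0 : 0 ≤ X) (hX : 32 * X ≤ lam ^ 2 * N) (l m : ℝ) (hl : 0 < l) (hl2 : l ≤ 2 * L)
    (hm : 1 ≤ m) (hlm : 1 ≤ l * m) (d : ℕ) (hd : 4 * X * L < lam * N * (d + 1))
    (hd' : lam * N * d ≤ 4 * X * L) :
    ((badL lam th P N X).card : ℝ) ≤ 4 ^ P.card * (2 * L) ^ d * m ^ d *
      Real.exp (P.card * Real.log (2 * L) - th * P.card * (Real.log (2 * L) - Real.log l)) *
      Real.exp (7680 * (L ^ 3 * X / (lam ^ 3 * (N : ℝ) ^ 2)) / l) := by
  classical
  have hN0 : (0 : ℝ) < N := by linarith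
  have hL0 : 0 < L := by linarith
  set ι := {p // p ∈ P} with hι
  obtain ⟨S, hS⟩ : ∃ S : ℝ, S = 7680 * (L ^ 3 * X / (lam ^ 3 * (N : ℝ) ^ 2)) := ⟨_, rfl⟩
  have hS0 : 0 ≤ S := by rw [hS]; positivity
  rw [← hS]
  obtain ⟨B, hB⟩ : ∃ B : ℝ, B = Real.exp (P.card * Real.log (2 * L) -
      th * P.card * (Real.log (2 * L) - Real.log l)) * m ^ d * Real.exp (S / l) := ⟨_, rfl⟩
  have hB0 : 0 ≤ B := by rw [hB]; positivity
  have hcardι : Fintype.card ι = P.card := Fintype.card_coe P
  -- `b`: the values on `D`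
  set Bb : Finset ι → Finset (ι → ℕ) := fun D =>
    Fintype.piFinset (fun p : ι => if p ∈ D then range p.1 else {0}) with hBb
  set F : Finset ι → Finset ι → (ι → ℕ) → Finset (ι → ℕ) := fun G D b =>
    Fintype.piFinset (fun p : ι => if p ∈ D then {b p} else
      if p ∈ G then richL lam N p (cov N D b) else range p.1) with hF
  set T : Finset (Finset ι × Finset ι) := univ.filter (fun t => t.2 ⊆ t.1 ∧ t.2.card ≤ d ∧
    th * P.card ≤ (t.1.card : ℝ)) with hT
  have hsub : badL lam th P N X ⊆ T.biUnion (fun t => (Bb t.2).biUnion (fun b => F t.1 t.2 b)) := by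
    intro a ha
    rw [badL, mem_filter, Fintype.mem_piFinset] at ha
    obtain ⟨ha1, E, hE, hth⟩ := ha
    have ha1' : ∀ p : ι, a p < p.1 := fun p => mem_range.1 (ha1 p)
    obtain ⟨D, hDG, hD1, hD2⟩ := greedyL hlam N a ha1' h2 E (good lam N a E) (Subset.refl _)
    have hDd : D.card ≤ d := by
      by_contra hcon
      push Not at hcon
      have h3 : ((d : ℝ) + 1) ≤ D.card := by exact_mod_cast hcon
      have h4 : ((d : ℝ) + 1) * (lam * N / (4 * L)) ≤ X := by
        calc ((d : ℝ) + 1) * (lam * N / (4 * L)) ≤ D.card * (lam * N / (4 * L)) := by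
              apply mul_le_mul_of_nonneg_right h3 (by positivity)
          _ ≤ (E.card : ℝ) := hD1
          _ ≤ X := hE
      rw [← mul_div_assoc, div_le_iff₀ (by positivity)] at h4
      nlinarith
    set b : ι → ℕ := fun p => if p ∈ D then a p else 0 with hb
    have hab : cov N D b = cov N D a := cov_congr (fun p hp => by rw [hb]; simp [hp])
    rw [mem_biUnion]
    refine ⟨(good lam N a E, D), by rw [hT, mem_filter]; exact ⟨mem_univ _, hDG, hDd, hth⟩, ?_⟩
    rw [mem_biUnion]
    refine ⟨b, ?_, ?_⟩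
    · rw [hBb]
      simp only [Fintype.mem_piFinset]
      intro p
      by_cases hp : p ∈ D
      · simp only [hp, if_true, hb]
        exact ha1 p
      · simp [hp, hb]
    · rw [hF]
      simp only [Fintype.mem_piFinset]
      intro p
      by_cases hp : p ∈ D
      · simp [hp, hb]
      · simp only [hp, if_false]
        by_cases hpG : p ∈ good lam N a E
        · simp only [hpG, if_true]
          rw [hab]
          exact hD2 p hpG hp
        · simp only [hpG, if_false]
          exact ha1 p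
  have hFcard : ∀ t ∈ T, ∀ b ∈ Bb t.2, ((F t.1 t.2 b).card : ℝ) ≤ B := by
    intro t ht b hb
    obtain ⟨G, D⟩ := t
    rw [hT, mem_filter] at ht
    obtain ⟨-, hDG, hDd, hGth⟩ := ht
    simp only at hDG hDd hGth hb ⊢
    -- the size of the covered set
    have hCle : ((cov N D b).card : ℝ) ≤ 8 * X / lam := by
      have h3 : cov N D b = D.biUnion (fun p => cls N p.1 (b p)) := by
        ext n
        simp only [cov, cls, mem_filter, mem_biUnion]
        constructor
        · rintro ⟨h3, p, hp, h4⟩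
          exact ⟨p, hp, h3, h4⟩
        · rintro ⟨p, hp, h3, h4⟩
          exact ⟨h3, p, hp, h4⟩
      have h4 : ((cov N D b).card : ℝ) ≤ D.card * (2 * N / L) := by
        rw [h3]
        calc ((D.biUnion (fun p => cls N p.1 (b p))).card : ℝ) ≤
              ∑ p ∈ D, ((cls N p.1 (b p)).card : ℝ) := by exact_mod_cast card_biUnion_le
          _ ≤ ∑ _p ∈ D, (2 * (N : ℝ) / L) :=
              sum_le_sum fun p _ => cls_card_le' _ hL0 (h1 p.1 p.2) (by linarith)
          _ = D.card * (2 * N / L) := by rw [sum_const, nsmul_eq_mul]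
      refine h4.trans ?_
      have h5 : (D.card : ℝ) ≤ d := by exact_mod_cast hDd
      calc (D.card : ℝ) * (2 * N / L) ≤ d * (2 * N / L) := by gcongr
        _ = (lam * N * d) * (2 / (L * lam)) := by field_simp
        _ ≤ (4 * X * L) * (2 / (L * lam)) := by gcongr
        _ = 8 * X / lam := by field_simp; ring
    have hC4 : 4 * ((cov N D b).card : ℝ) ≤ lam * N := by
      have h5 : 32 * X / lam ≤ lam * N := by
        rw [div_le_iff₀ hlam]
        linarith [sq lam]
      have h6 : 4 * (8 * X / lam) = 32 * X / lam := by ring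
      linarith
    have hr := richL_sum hlam P N L hL hP h2 hN hNL (cov N D b) (cov_sub N D b) hC4
    have hr2 : ∑ p ∈ G, ((richL lam N p.1 (cov N D b)).card : ℝ) ≤ S := by
      have e1 : ∑ p : ι, ((richL lam N p.1 (cov N D b)).card : ℝ) =
          ∑ p ∈ P, ((richL lam N p (cov N D b)).card : ℝ) :=
        sum_coe_sort P (fun p : ℕ => ((richL lam N p (cov N D b)).card : ℝ))
      calc ∑ p ∈ G, ((richL lam N p.1 (cov N D b)).card : ℝ) ≤
            ∑ p : ι, ((richL lam N p.1 (cov N D b)).card : ℝ) :=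
            sum_le_sum_of_subset_of_nonneg (subset_univ _) fun _ _ _ => Nat.cast_nonneg _
        _ ≤ 960 * (L ^ 3 * (cov N D b).card / (lam * (N : ℝ)) ^ 2) := by rw [e1]; exact hr
        _ ≤ 960 * (L ^ 3 * (8 * X / lam) / (lam * (N : ℝ)) ^ 2) := by gcongr
        _ = S := by rw [hS]; field_simp; ring
    have e2 : ((F G D b).card : ℝ) =
        ∏ p : ι, (if p ∈ D then (1 : ℝ) else
          if p ∈ G then ((richL lam N p.1 (cov N D b)).card : ℝ) else (p.1 : ℝ)) := by
      rw [hF]
      simp only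
      rw [Fintype.card_piFinset]
      push_cast
      apply prod_congr rfl
      intro p _
      split_ifs <;> simp
    have e3 : ((F G D b).card : ℝ) =
        (∏ p ∈ G, (if p ∈ D then (1 : ℝ) else ((richL lam N p.1 (cov N D b)).card : ℝ))) *
        ∏ p ∈ Gᶜ, (p.1 : ℝ) := by
      rw [e2, ← prod_mul_prod_compl G]
      congr 1
      · apply prod_congr rfl
        intro p hp
        simp [hp]
      · apply prod_congr rfl
        intro p hp
        rw [mem_compl] at hp
        have : p ∉ D := fun h => hp (hDG h)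
        simp [hp, this]
    have h5 := prod_boundL G D (fun p : ι => ((richL lam N p.1 (cov N D b)).card : ℝ))
      (fun _ => Nat.cast_nonneg _) hl hm hlm hr2 hDG hDd
    have h6 : ∏ p ∈ Gᶜ, (p.1 : ℝ) ≤ (2 * L) ^ (P.card - G.card) := by
      rw [← hcardι, ← card_compl]
      calc ∏ p ∈ Gᶜ, (p.1 : ℝ) ≤ ∏ _p ∈ Gᶜ, (2 * L) :=
            prod_le_prod (fun _ _ => Nat.cast_nonneg _) fun p _ => h2 p.1 p.2
        _ = (2 * L) ^ Gᶜ.card := by rw [prod_const]
    have hGP : G.card ≤ P.card := by rw [← hcardι]; exact card_le_univ G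
    have h7 : l ^ G.card * (2 * L) ^ (P.card - G.card) ≤ Real.exp (P.card * Real.log (2 * L) -
        th * P.card * (Real.log (2 * L) - Real.log l)) := by
      have h8 : l ^ G.card = Real.exp (G.card * Real.log l) := by
        rw [Real.exp_nat_mul, Real.exp_log hl]
      have h9 : (2 * L) ^ (P.card - G.card) = Real.exp ((P.card - G.card) * Real.log (2 * L)) := by
        rw [← Nat.cast_sub hGP, Real.exp_nat_mul, Real.exp_log (by positivity)]
      rw [h8, h9, ← Real.exp_add]
      apply Real.exp_le_exp.2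
      have h10 : 0 ≤ Real.log (2 * L) - Real.log l := by
        have := Real.log_le_log hl hl2
        linarith
      have h11 := mul_le_mul_of_nonneg_right hGth h10
      nlinarith
    rw [e3, hB]
    have h12 : 0 ≤ ∏ p ∈ Gᶜ, (p.1 : ℝ) := prod_nonneg fun _ _ => Nat.cast_nonneg _
    calc (∏ p ∈ G, (if p ∈ D then (1 : ℝ) else ((richL lam N p.1 (cov N D b)).card : ℝ))) *
          ∏ p ∈ Gᶜ, (p.1 : ℝ) ≤ (l ^ G.card * m ^ d * Real.exp (S / l)) *
            (2 * L) ^ (P.card - G.card) := by gcongr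
      _ = (l ^ G.card * (2 * L) ^ (P.card - G.card)) * m ^ d * Real.exp (S / l) := by ring
      _ ≤ _ := by gcongr
  have hBbcard : ∀ D : Finset ι, D.card ≤ d → ((Bb D).card : ℝ) ≤ (2 * L) ^ d := by
    intro D hDd
    have h4 : ((Bb D).card : ℝ) ≤ ∏ p : ι, (if p ∈ D then 2 * L else 1) := by
      rw [hBb]
      simp only
      rw [Fintype.card_piFinset]
      push_cast
      apply prod_le_prod
      · intro p _
        exact Nat.cast_nonneg _
      · intro p _
        split_ifs
        · rw [card_range]; exact h2 p.1 p.2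
        · simp
    rw [prod_ite_mem, univ_inter, prod_const] at h4
    refine h4.trans ?_
    exact pow_le_pow_right₀ (by linarith) hDd
  have h5 : ((badL lam th P N X).card : ℝ) ≤ ∑ t ∈ T, ((2 * L) ^ d * B) := by
    refine (Nat.cast_le.2 (card_le_card hsub)).trans ?_
    refine (Nat.cast_le.2 card_biUnion_le).trans ?_
    push_cast
    apply sum_le_sum
    intro t ht
    refine (Nat.cast_le.2 card_biUnion_le).trans ?_
    push_cast
    have ht' := ht
    rw [hT, mem_filter] at ht'
    calc ∑ b ∈ Bb t.2, ((F t.1 t.2 b).card : ℝ) ≤ ∑ b ∈ Bb t.2, B := sum_le_sum (hFcard t ht)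
      _ = (Bb t.2).card * B := by rw [sum_const, nsmul_eq_mul]
      _ ≤ (2 * L) ^ d * B := mul_le_mul_of_nonneg_right (hBbcard t.2 ht'.2.2.1) hB0
  rw [sum_const, nsmul_eq_mul] at h5
  have h6 : (T.card : ℝ) ≤ 4 ^ P.card := by
    have : T.card ≤ 4 ^ P.card := by
      refine (card_le_card (subset_univ _)).trans ?_
      rw [card_univ, Fintype.card_prod, Fintype.card_finset, hcardι, ← mul_pow]
      norm_num
    exact_mod_cast this
  calc ((badL lam th P N X).card : ℝ) ≤ _ := h5
    _ ≤ 4 ^ P.card * ((2 * L) ^ d * B) := by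
      apply mul_le_mul_of_nonneg_right h6
      positivity
    _ = _ := by rw [hB]; ring

end Pool.Agent.K3h46.TP
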