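import Pool.Agent.R416.CV.Asym
import Pool.Agent.K3h46.TP.Count

/-!
# Choices of classes with large proportions in a small set: asymptotic form
-/

set_option autoImplicit false
set_option maxHeartbeats 1000000

open Finset Filter Topology

namespace Pool.Agent.K3h46.TP

open Pool.Agent.H170R2.PC Pool.Agent.R416.CV

open Classical in
/-- the number of the elements of `E` in the class `a p` -/
noncomputable def hits {α : ℝ} {N : ℕ} (a : Choice α N) (E : Finset ℕ)
    (p : {p : ℕ // InRange α N p}) : ℕ :=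
  (E.filter fun n : ℕ => (n : ZMod p.1) = a p).card

/-- the number of the primes such that `E` contains at least `lam N / p` elements of the class -/
noncomputable def numGood {α : ℝ} {N : ℕ} (lam : ℝ) (a : Choice α N) (E : Finset ℕ) : ℕ :=
  Nat.card {p : {p : ℕ // InRange α N p} // lam * N / (p.1 : ℝ) ≤ (hits a E p : ℝ)}

/-- the number of the choices `a` such that some set of at most `X` integers of `[1, N]` contains
at least `lam N / p` elements of the class `a p` for at least the proportion `th` of the primes -/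
noncomputable def numBad (α lam th : ℝ) (N : ℕ) (X : ℝ) : ℕ :=
  Nat.card {a : Choice α N // ∃ E ⊆ Icc 1 N, (E.card : ℝ) ≤ X ∧
    th * numPrimes α N ≤ (numGood lam a E : ℝ)}

lemma hits_eq {α : ℝ} {N : ℕ} (a : Choice α N) (E : Finset ℕ) (hE : E ⊆ Icc 1 N)
    (p : {p // p ∈ PD α N}) :
    hits a E (eqv α N p) = (cls N p.1 ((a (eqv α N p)).val) ∩ E).card := by
  classical
  have : NeZero (eqv α N p).1 := ⟨(eqv α N p).2.1.ne_zero⟩
  unfold hits
  congr 1
  ext n
  rw [mem_filter, mem_inter, cls, mem_filter]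
  constructor
  · rintro ⟨h1, h2⟩
    refine ⟨⟨hE h1, ?_⟩, h1⟩
    rw [← h2, ZMod.val_natCast]
    rfl
  · rintro ⟨⟨_, h2⟩, h1⟩
    refine ⟨h1, ?_⟩
    apply ZMod.val_injective
    rw [ZMod.val_natCast]
    exact h2

lemma numGood_eq {α : ℝ} {N : ℕ} (lam : ℝ) (a : Choice α N) (E : Finset ℕ) (hE : E ⊆ Icc 1 N) :
    numGood lam a E =
      (good lam N (fun p : {p // p ∈ PD α N} => (a (eqv α N p)).val) E).card := by
  classical
  unfold numGood good
  rw [← Fintype.card_subtype, ← Nat.card_eq_fintype_card]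
  apply Nat.card_congr
  refine ((eqv α N).subtypeEquiv fun p => ?_).symm
  rw [hits_eq a E hE p]
  rfl

lemma numBad_le (α lam th : ℝ) (N : ℕ) (X : ℝ) :
    numBad α lam th N X ≤ (badL lam th (PD α N) N X).card := by
  classical
  rw [numBad, ← Fintype.card_coe, ← Nat.card_eq_fintype_card]
  refine Nat.card_le_card_of_injective
    (fun a : {a : Choice α N // ∃ E ⊆ Icc 1 N, (E.card : ℝ) ≤ X ∧
        th * numPrimes α N ≤ (numGood lam a E : ℝ)} =>
      (⟨fun p : {p // p ∈ PD α N} => (a.1 (eqv α N p)).val, ?_⟩ :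
        {x // x ∈ badL lam th (PD α N) N X})) ?_
  · rw [badL, mem_filter, Fintype.mem_piFinset]
    refine ⟨fun p => ?_, ?_⟩
    · rw [mem_range]
      have : NeZero (eqv α N p).1 := ⟨(eqv α N p).2.1.ne_zero⟩
      exact ZMod.val_lt (a.1 (eqv α N p))
    · obtain ⟨E, hE, h1, h2⟩ := a.2
      refine ⟨E, h1, ?_⟩
      rw [numGood_eq lam a.1 E hE] at h2
      have h3 := numPrimes_eq α N
      calc th * ((PD α N).card : ℝ) = th * (numPrimes α N : ℝ) := by rw [h3]
        _ ≤ _ := h2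
  · intro a b h
    apply Subtype.ext
    funext p
    have h1 := congrArg Subtype.val h
    have h2 := congrFun h1 ((eqv α N).symm p)
    simp only at h2
    have : NeZero p.1 := ⟨p.2.1.ne_zero⟩
    exact ZMod.val_injective _ h2

/-- the inequality between the exponents -/
lemma exp_stepL {α η δ ℓ x K d lam th : ℝ} (hlam : 0 < lam) (hδ : 64 * δ ≤ α * η * lam)
    (hℓ : 1 ≤ ℓ) (hK : 0 ≤ K) (hd : lam * d ≤ 16 * δ * K) (hth0 : 0 ≤ th) (hth1 : th ≤ 1)
    (hbig : Real.log ℓ + 3 + 30720 / lam ^ 3 ≤ α * η / 2 * ℓ) :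
    2 * K + d * ℓ + d * ℓ + (K * (Real.log 2 + α * ℓ) - th * K * ((Real.log 2 + α * ℓ) -
      (x + (2 * α - 2) * ℓ + Real.log ℓ))) + 30720 / lam ^ 3 * K ≤
      (α * ℓ * K) * η + (K * (α * ℓ) - th * K * ((1 - α) * ℓ)) + th * K * (x - ℓ) := by
  have hln : 0 ≤ Real.log ℓ := Real.log_nonneg hℓ
  have hl2 : Real.log 2 ≤ 1 := by
    have := Real.log_two_lt_d9
    linarith
  have hl20 : 0 ≤ Real.log 2 := Real.log_nonneg (by norm_num)
  have h1 : 2 * (d * ℓ) ≤ α * η / 2 * ℓ * K := by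
    have h2 : lam * (2 * (d * ℓ)) ≤ lam * (α * η / 2 * ℓ * K) := by
      calc lam * (2 * (d * ℓ)) = 2 * ℓ * (lam * d) := by ring
        _ ≤ 2 * ℓ * (16 * δ * K) := by gcongr
        _ = 64 * δ * (ℓ * K / 2) := by ring
        _ ≤ α * η * lam * (ℓ * K / 2) := by gcongr
        _ = lam * (α * η / 2 * ℓ * K) := by ring
    exact le_of_mul_le_mul_left h2 hlam
  have h3 : K * (Real.log ℓ + 3 + 30720 / lam ^ 3) ≤ K * (α * η / 2 * ℓ) :=
    mul_le_mul_of_nonneg_left hbig hK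
  have h4 : th * K * Real.log ℓ ≤ K * Real.log ℓ := by
    have := mul_nonneg hK hln
    nlinarith
  have h5 : K * Real.log 2 ≤ K := by nlinarith
  have h6 : 0 ≤ th * K * Real.log 2 := by positivity
  nlinarith

lemma main_L {α η lam th : ℝ} (h1 : 1 / 2 < α) (h2 : α < 1) (hη : 0 < η) (hlam : 0 < lam)
    (hth : 0 < th) (hth1 : th ≤ 1) :
    ∃ δ : ℝ, 0 < δ ∧ ∃ N₀ : ℕ, ∀ N : ℕ, N₀ ≤ N → ∀ X : ℝ, 1 ≤ X → X ≤ δ * N / Real.log N →
      (numBad α lam th N X : ℝ) ≤
        (numChoices α N : ℝ) ^ (1 - th * (1 - α) / α + η) *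
          (X / N) ^ (th * numPrimes α N) := by
  have hα : 0 < α := by linarith
  obtain ⟨δ, hδd⟩ : ∃ δ, δ = min (min 1 (lam ^ 2 / 32)) (α * η * lam / 64) := ⟨_, rfl⟩
  have hδ0 : 0 < δ := by rw [hδd]; positivity
  have hδ8 : δ ≤ 1 := by rw [hδd]; exact (min_le_left _ _).trans (min_le_left _ _)
  have hδ9 : 32 * δ ≤ lam ^ 2 := by
    have : δ ≤ lam ^ 2 / 32 := by rw [hδd]; exact (min_le_left _ _).trans (min_le_right _ _)
    linarith
  have hδ1 : 64 * δ ≤ α * η * lam := by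
    have : δ ≤ α * η * lam / 64 := by rw [hδd]; exact min_le_right _ _
    linarith
  refine ⟨δ, hδ0, ?_⟩
  have hlog : Tendsto (fun N : ℕ => Real.log (N : ℝ)) atTop atTop :=
    Real.tendsto_log_atTop.comp tendsto_natCast_atTop_atTop
  have hll : ∀ᶠ ℓ : ℝ in atTop, Real.log ℓ + 3 + 30720 / lam ^ 3 ≤ α * η / 2 * ℓ := by
    have hc : 0 < α * η / 4 := by positivity
    have ho := Real.isLittleO_log_id_atTop.bound hc
    filter_upwards [ho, eventually_ge_atTop 1,
      eventually_ge_atTop ((3 + 30720 / lam ^ 3) / (α * η / 4))] with ℓ h3 h4 h5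
    have h6 : Real.log ℓ ≤ α * η / 4 * ℓ := by
      refine (le_abs_self _).trans ?_
      rw [Real.norm_eq_abs, id, Real.norm_of_nonneg (by linarith)] at h3
      exact h3
    rw [div_le_iff₀ hc] at h5
    linarith
  have hev := ((ev_primes hα h2).and (((ev_const 4 (show 0 < 1 - α by linarith)).and
    (hlog.eventually hll)).and ((hlog.eventually (eventually_ge_atTop 1)).and
    (eventually_ge_atTop 1))))
  obtain ⟨N₀, hN₀⟩ := eventually_atTop.1 hev
  refine ⟨N₀, fun N hN X hX1 hX => ?_⟩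
  obtain ⟨hpr, ⟨h4, hbig⟩, hl1, hN1⟩ := hN₀ N hN
  have hN0 : (0 : ℝ) < N := by exact_mod_cast hN1
  obtain ⟨ℓ, hℓ⟩ : ∃ ℓ, ℓ = Real.log N := ⟨_, rfl⟩
  rw [← hℓ] at hX hpr hbig hl1
  have hℓ0 : 0 < ℓ := by linarith
  obtain ⟨L, hL⟩ : ∃ L, L = (N : ℝ) ^ α := ⟨_, rfl⟩
  have hLe : L = Real.exp (α * ℓ) := by
    rw [hL, Real.rpow_def_of_pos hN0, hℓ, mul_comm]
  have hNe : (N : ℝ) = Real.exp ℓ := by rw [hℓ, Real.exp_log hN0]
  have hL1 : 1 ≤ L := by rw [hLe]; exact Real.one_le_exp (by positivity)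
  have hLN : 4 * L ≤ N := by
    rw [hL]
    calc 4 * (N : ℝ) ^ α ≤ (N : ℝ) ^ (1 - α) * (N : ℝ) ^ α := by gcongr
      _ = N := by rw [← Real.rpow_add hN0]; simp
  have hNL : (N : ℝ) ≤ L ^ 2 := by
    rw [hLe, ← Real.exp_nat_mul]
    nth_rewrite 1 [hNe]
    apply Real.exp_le_exp.2
    push_cast
    nlinarith
  have hX0 : 0 < X := by linarith
  have hXN : X * ℓ ≤ δ * N := by
    rwa [le_div_iff₀ hℓ0] at hX
  have hX8 : 32 * X ≤ lam ^ 2 * N := by
    have h5 : X ≤ X * ℓ := by nlinarith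
    have h6 : 32 * (δ * N) ≤ lam ^ 2 * N := by nlinarith
    linarith
  obtain ⟨K, hK⟩ : ∃ K, K = (PD α N).card := ⟨_, rfl⟩
  rw [← hK, ← hL] at hpr
  have hK0 : (0 : ℝ) ≤ K := Nat.cast_nonneg _
  obtain ⟨x, hx⟩ : ∃ x, x = Real.log X := ⟨_, rfl⟩
  have hXe : X = Real.exp x := by rw [hx, Real.exp_log hX0]
  -- the parameter l
  obtain ⟨l, hl⟩ : ∃ l, l = Real.exp (x + (2 * α - 2) * ℓ + Real.log ℓ) := ⟨_, rfl⟩
  have hl0 : 0 < l := by rw [hl]; exact Real.exp_pos _
  have hlm : 1 ≤ l * N := by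
    rw [hl, hNe, ← Real.exp_add]
    apply Real.one_le_exp
    have h5 : 0 ≤ x := by rw [hx]; exact Real.log_nonneg hX1
    have h6 : 0 ≤ Real.log ℓ := Real.log_nonneg hl1
    nlinarith
  have hl2L : l ≤ 2 * L := by
    have e1 : l = X * ℓ * Real.exp ((2 * α - 2) * ℓ) := by
      rw [hl, Real.exp_add, Real.exp_add, Real.exp_log hℓ0, ← hXe]
      ring
    rw [e1]
    calc X * ℓ * Real.exp ((2 * α - 2) * ℓ) ≤ (δ * N) * Real.exp ((2 * α - 2) * ℓ) := by gcongr
      _ ≤ (1 * N) * Real.exp ((2 * α - 2) * ℓ) := by gcongr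
      _ = Real.exp ((2 * α - 1) * ℓ) := by
          rw [one_mul, hNe, ← Real.exp_add]
          congr 1
          ring
      _ ≤ Real.exp (α * ℓ) := by
          apply Real.exp_le_exp.2
          nlinarith
      _ = L := hLe.symm
      _ ≤ 2 * L := by linarith
  obtain ⟨d, hd⟩ : ∃ d, d = ⌊4 * X * L / (lam * N)⌋₊ := ⟨_, rfl⟩
  have hlN : 0 < lam * N := by positivity
  have hd1 : 4 * X * L < lam * N * (d + 1) := by
    have := Nat.lt_floor_add_one (4 * X * L / (lam * N))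
    rw [← hd, div_lt_iff₀ hlN] at this
    linarith
  have hd3 : lam * N * d ≤ 4 * X * L := by
    have h5 : (d : ℝ) ≤ 4 * X * L / (lam * N) := by rw [hd]; exact Nat.floor_le (by positivity)
    rw [le_div_iff₀ hlN] at h5
    linarith
  have hd2 : lam * (d : ℝ) ≤ 16 * δ * K := by
    have h6 : (lam * d) * (N * ℓ) ≤ (16 * δ * K) * (N * ℓ) := by
      calc (lam * d) * (N * ℓ) = (lam * N * d) * ℓ := by ring
        _ ≤ (4 * X * L) * ℓ := by gcongr
        _ = 4 * (X * ℓ) * L := by ring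
        _ ≤ 4 * (δ * N) * L := by gcongr
        _ ≤ 4 * (δ * N) * (4 * (K * ℓ)) := by gcongr
        _ = _ := by ring
    exact le_of_mul_le_mul_right h6 (by positivity)
  have hcount := countL (th := th) hlam (PD α N) N L hL1 (fun p hp => (mem_PD.1 hp).1)
    (fun p hp => by rw [hL]; exact (mem_PD.1 hp).2.1)
    (fun p hp => by rw [hL]; exact (mem_PD.1 hp).2.2.le) hLN hNL X hX0.le hX8 l N hl0 hl2L
    (by exact_mod_cast hN1) hlm d hd1 hd3
  rw [← hK] at hcount
  have hsmall : (numBad α lam th N X : ℝ) ≤ ((badL lam th (PD α N) N X).card : ℝ) := by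
    exact_mod_cast numBad_le α lam th N X
  -- the upper bound as an exponential
  have hE : 7680 * (L ^ 3 * X / (lam ^ 3 * (N : ℝ) ^ 2)) / l ≤ 30720 / lam ^ 3 * K := by
    have e1 : L ^ 3 * X / (N : ℝ) ^ 2 / l = L / ℓ := by
      have e2 : L ^ 3 * X / (N : ℝ) ^ 2 / l = Real.exp (3 * (α * ℓ) + x - 2 * ℓ -
          (x + (2 * α - 2) * ℓ + Real.log ℓ)) := by
        rw [Real.exp_sub, Real.exp_sub, Real.exp_add, hl, hLe]
        have e3 : (N : ℝ) ^ 2 = Real.exp (2 * ℓ) := by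
          rw [hNe, ← Real.exp_nat_mul]; norm_num
        have e4 : Real.exp (α * ℓ) ^ 3 = Real.exp (3 * (α * ℓ)) := by
          rw [← Real.exp_nat_mul]; norm_num
        rw [e3, e4, ← hXe]
      rw [e2]
      have e5 : 3 * (α * ℓ) + x - 2 * ℓ - (x + (2 * α - 2) * ℓ + Real.log ℓ) =
          α * ℓ - Real.log ℓ := by ring
      rw [e5, Real.exp_sub, Real.exp_log hℓ0, ← hLe]
    have e6 : 7680 * (L ^ 3 * X / (lam ^ 3 * (N : ℝ) ^ 2)) / l = 7680 / lam ^ 3 * (L / ℓ) := by
      rw [← e1]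
      field_simp
    rw [e6]
    have h5 : L / ℓ ≤ 4 * K := by
      rw [div_le_iff₀ hℓ0]; linarith
    calc 7680 / lam ^ 3 * (L / ℓ) ≤ 7680 / lam ^ 3 * (4 * K) := by gcongr
      _ = 30720 / lam ^ 3 * K := by ring
  have hlog2L : Real.log (2 * L) = Real.log 2 + α * ℓ := by
    rw [Real.log_mul (by norm_num) (by positivity), hLe, Real.log_exp]
  have hlogl : Real.log l = x + (2 * α - 2) * ℓ + Real.log ℓ := by rw [hl, Real.log_exp]
  have hup : (4 : ℝ) ^ K * (2 * L) ^ d * (N : ℝ) ^ d *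
      Real.exp (K * Real.log (2 * L) - th * K * (Real.log (2 * L) - Real.log l)) *
      Real.exp (7680 * (L ^ 3 * X / (lam ^ 3 * (N : ℝ) ^ 2)) / l) ≤
      Real.exp (2 * K + d * ℓ + d * ℓ + (K * (Real.log 2 + α * ℓ) - th * K *
        ((Real.log 2 + α * ℓ) - (x + (2 * α - 2) * ℓ + Real.log ℓ))) + 30720 / lam ^ 3 * K) := by
    rw [Real.exp_add, Real.exp_add, Real.exp_add, Real.exp_add]
    have a1 : (4 : ℝ) ^ K ≤ Real.exp (2 * K) := by
      have h5 : (2 : ℝ) ≤ Real.exp 1 := by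
        have := Real.add_one_le_exp (1 : ℝ); linarith
      calc (4 : ℝ) ^ K = (2 ^ 2) ^ K := by norm_num
        _ ≤ ((Real.exp 1) ^ 2) ^ K := by gcongr
        _ = Real.exp (2 * K) := by
            rw [← Real.exp_nat_mul, ← Real.exp_nat_mul]
            congr 1
            push_cast
            ring
    have a2 : (2 * L) ^ d ≤ Real.exp (d * ℓ) := by
      calc (2 * L) ^ d ≤ (Real.exp ℓ) ^ d := by
            rw [← hNe]
            apply pow_le_pow_left₀ (by positivity)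
            linarith
        _ = Real.exp (d * ℓ) := by rw [← Real.exp_nat_mul]
    have a4 : (N : ℝ) ^ d = Real.exp (d * ℓ) := by
      rw [Real.exp_nat_mul, ← hNe]
    have a5 : Real.exp (7680 * (L ^ 3 * X / (lam ^ 3 * (N : ℝ) ^ 2)) / l) ≤
        Real.exp (30720 / lam ^ 3 * K) := Real.exp_le_exp.2 hE
    rw [a4, hlog2L, hlogl]
    gcongr
  have hstep := exp_stepL (x := x) hlam hδ1 hl1 hK0 hd2 hth.le hth1 hbig
  -- the lower bound for the right side
  have hM : L ^ K ≤ (numChoices α N : ℝ) := by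
    rw [numChoices_eq]
    push_cast
    rw [hK, ← prod_const]
    apply Finset.prod_le_prod
    · intro p _; linarith
    · intro p hp
      rw [hL]; exact (mem_PD.1 hp).2.1
  have hexp0 : 0 ≤ 1 - th * (1 - α) / α + η := by
    have h5 : th * (1 - α) / α ≤ 1 := by
      rw [div_le_one hα]
      nlinarith
    linarith
  have hR : Real.exp ((α * ℓ * K) * η + (K * (α * ℓ) - th * K * ((1 - α) * ℓ)) +
        th * K * (x - ℓ)) ≤
      (numChoices α N : ℝ) ^ (1 - th * (1 - α) / α + η) * (X / N) ^ (th * numPrimes α N) := by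
    rw [Real.exp_add]
    have b1 : Real.exp ((α * ℓ * K) * η + (K * (α * ℓ) - th * K * ((1 - α) * ℓ))) =
        (L ^ K) ^ (1 - th * (1 - α) / α + η) := by
      rw [hLe, ← Real.exp_nat_mul, ← Real.exp_mul]
      congr 1
      field_simp
      ring
    have b2 : Real.exp (th * K * (x - ℓ)) = (X / N) ^ (th * numPrimes α N) := by
      rw [numPrimes_eq, ← hK, Real.rpow_def_of_pos (by positivity), hXe, hNe, ← Real.exp_sub,
        Real.log_exp]
      congr 1
      ring
    rw [b1, b2]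
    apply mul_le_mul_of_nonneg_right _ (by positivity)
    apply Real.rpow_le_rpow (by positivity) hM hexp0
  calc (numBad α lam th N X : ℝ) ≤ _ := hsmall
    _ ≤ _ := hcount
    _ ≤ _ := hup
    _ ≤ _ := Real.exp_le_exp.2 hstep
    _ ≤ _ := hR

end Pool.Agent.K3h46.TP
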